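import Pool.Agent.MP_06b47d_co.Defs
import Mathlib

section

/-! Triangulations given by a third-vertex function. -/

open Relation

namespace Pool.Agent.MP_06b47d_co

/-- An oriented triangulation: `nx a b` is the third vertex of the face to the side of `a b`. -/
structure Pre (V : Type) where
  adj : V → V → Prop
  nx : V → V → V
  symm : ∀ {a b}, adj a b → adj b a
  irr : ∀ a, ¬ adj a a
  h1 : ∀ {a b}, adj a b → adj b (nx a b)
  h2 : ∀ {a b}, adj a b → nx b (nx a b) = a
  link : ∀ {v u w}, adj v u → adj v w → ReflTransGen (fun x y => adj v x ∧ y = nx x v) u w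
  conn : ∀ a b, ReflTransGen adj a b

namespace Pre

variable {V : Type} (P : Pre V)

lemma h3 {a b : V} (h : P.adj a b) : P.nx (P.nx a b) a = b := by
  have := P.h2 (P.h1 h)
  rwa [P.h2 h] at this

lemma h4 {a b : V} (h : P.adj a b) : P.adj (P.nx a b) a := by
  have := P.h1 (P.h1 h)
  rwa [P.h2 h] at this

def Bad : Prop :=
  ¬ ∃ f : V → V → Fin 3, (∀ a b, f a b = f b a) ∧ ∀ a b, P.adj a b → f a b ≠ f b (P.nx a b)

open Classical in
noncomputable def darts [Fintype V] : ℕ := ∑ x, ∑ y, if P.adj x y then 1 else 0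

def graph : SimpleGraph V where
  Adj := P.adj
  symm := ⟨fun _ _ h => P.symm h⟩
  loopless := ⟨P.irr⟩

def rotSys : RotationSystem P.graph where
  rot :=
    { toFun := fun d => ⟨(d.fst, P.nx d.snd d.fst), P.h1 (P.symm d.adj)⟩
      invFun := fun d => ⟨(d.fst, P.nx d.fst d.snd), P.symm (P.h4 d.adj)⟩
      left_inv := fun d => by
        ext
        · rfl
        · exact P.h2 (P.symm d.adj)
      right_inv := fun d => by
        ext
        · rfl
        · exact P.h3 d.adj }
  rot_fst := fun _ => rfl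
  rot_cyc := by
    rintro ⟨⟨v, u⟩, hu⟩ ⟨⟨v', w⟩, hw⟩ h
    obtain rfl : v = v' := h
    have h1 : ReflTransGen (fun x y => P.adj v x ∧ y = P.nx x v) u w := P.link hu hw
    induction h1 with
    | refl => exact Equiv.Perm.SameCycle.refl _ _
    | tail _ h2 ih =>
      obtain ⟨h3, rfl⟩ := h2
      exact (ih h3).apply_right

lemma face_apply (d : P.graph.Dart) :
    P.rotSys.face d = ⟨(d.snd, P.nx d.fst d.snd), P.h1 d.adj⟩ := rfl

lemma face3 (d : P.graph.Dart) : P.rotSys.face (P.rotSys.face (P.rotSys.face d)) = d := by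
  ext
  · exact P.h2 d.adj
  · simp only [face_apply, P.h2 d.adj, P.h3 d.adj]

lemma face_ne (d : P.graph.Dart) : P.rotSys.face d ≠ d := fun h =>
  d.fst_ne_snd (congrArg (fun d : P.graph.Dart => d.fst) h).symm

lemma isTri : P.rotSys.IsTriangulation := fun d =>
  haveI : Fact (Nat.Prime 3) := ⟨Nat.prime_three⟩
  Function.minimalPeriod_eq_prime (P.face3 d) (P.face_ne d)

lemma card_darts [Fintype V] : Nat.card P.graph.Dart = P.darts := by
  classical
  have e : P.graph.Dart ≃ {p : V × V // P.adj p.1 p.2} :=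
    ⟨fun d => ⟨d.toProd, d.adj⟩, fun p => ⟨p.1, p.2⟩, fun _ => rfl, fun _ => rfl⟩
  rw [Nat.card_congr e, Nat.card_eq_fintype_card, Fintype.card_subtype, Finset.card_filter,
    Fintype.sum_prod_type, darts]

lemma card_faces [Fintype V] : 3 * Nat.card P.rotSys.Face = P.darts := by
  classical
  have : Fintype P.rotSys.Face := by unfold RotationSystem.Face; exact Fintype.ofFinite _
  rw [← card_darts, Nat.card_eq_fintype_card, Nat.card_eq_fintype_card, ← Finset.card_univ,
    ← Finset.card_univ (α := P.graph.Dart), Finset.card_eq_sum_card_fiberwise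
      (f := fun d => (Quotient.mk (Equiv.Perm.SameCycle.setoid P.rotSys.face) d : P.rotSys.Face))
      (s := Finset.univ) (t := Finset.univ) (fun _ _ => Finset.mem_univ _), mul_comm,
    Finset.card_eq_sum_ones, Finset.sum_mul]
  refine Finset.sum_congr (congrArg (@Finset.univ _) (Subsingleton.elim _ _)) fun F _ => ?_
  rw [one_mul]
  symm
  obtain ⟨d, rfl⟩ := Quotient.exists_rep F
  rw [Finset.card_eq_three]
  have h3 : P.rotSys.face ^ 3 = 1 := by
    ext1 d; exact P.face3 d
  refine ⟨d, P.rotSys.face d, P.rotSys.face (P.rotSys.face d), (P.face_ne d).symm, ?_,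
    (P.face_ne _).symm, ?_⟩
  · intro h
    have := congrArg P.rotSys.face h
    rw [P.face3] at this
    exact P.face_ne d this
  · ext x
    simp only [Finset.mem_filter, Finset.mem_univ, true_and, Finset.mem_insert,
      Finset.mem_singleton]
    constructor
    · intro h
      obtain ⟨i, -, hi⟩ := (Quotient.exact h).symm.exists_pow_eq'
      rw [← Nat.mod_add_div i 3, pow_add, pow_mul, h3, one_pow, mul_one] at hi
      have : i % 3 = 0 ∨ i % 3 = 1 ∨ i % 3 = 2 := by omega
      rcases this with h | h | h <;> rw [h] at hi <;> simp [← hi, pow_two]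
    · rintro (rfl | rfl | rfl)
      · rfl
      · exact Quotient.sound (Equiv.Perm.SameCycle.refl _ _).apply_left
      · exact Quotient.sound (Equiv.Perm.SameCycle.refl _ _).apply_left.apply_left

lemma not_grunbaum [Fintype V] [Nonempty V] {g : ℕ}
    (h : P.darts + 12 = 6 * Fintype.card V + 12 * g) (hb : P.Bad) : ¬ Grunbaum g := by
  classical
  intro H
  have h1 := P.card_faces
  have h2 : P.darts = 2 * Nat.card P.graph.edgeSet := by
    rw [← card_darts, Nat.card_eq_fintype_card, SimpleGraph.dart_card_eq_twice_card_edges,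
      Nat.card_eq_fintype_card, SimpleGraph.edgeFinset_card]
  obtain ⟨c, hc⟩ := H V P.graph P.rotSys ⟨⟨fun a b =>
    (SimpleGraph.reachable_iff_reflTransGen _ _).2 (P.conn a b)⟩, by
      rw [Nat.card_eq_fintype_card]; omega⟩ P.isTri
  refine hb ⟨fun a b => if h : s(a, b) ∈ P.graph.edgeSet then c ⟨_, h⟩ else 0,
    fun a b => by simp only [Sym2.eq_swap (a := a)], fun a b hab => ?_⟩
  have e1 : s(a, b) ∈ P.graph.edgeSet := hab
  have e2 : s(b, P.nx a b) ∈ P.graph.edgeSet := P.h1 hab
  simp only [dif_pos e1, dif_pos e2]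
  refine hc _ _ ?_ ⟨_, ⟨⟨(a, b), hab⟩, rfl, rfl⟩, ⟨⟨(b, P.nx a b), P.h1 hab⟩, rfl,
    Quotient.sound (Equiv.Perm.SameCycle.refl P.rotSys.face ⟨(a, b), hab⟩).apply_left⟩⟩
  intro h
  rcases Sym2.eq_iff.1 (congrArg Subtype.val h) with ⟨h1, -⟩ | ⟨h1, -⟩
  · exact P.irr _ (h1 ▸ hab)
  · have h5 := P.h4 hab
    rw [← h1] at h5
    exact P.irr _ h5

end Pre

end Pool.Agent.MP_06b47d_co

end

section

/-! A verified backtracking search over 3-colourings with inequality constraints. -/

namespace Pool.Agent.MP_06b47d_co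

def chk (goal : (ℕ → Fin 3) → Bool) : List (ℕ × List ℕ) → (ℕ → Fin 3) → Bool
  | [], s => goal s
  | (e, L) :: rest, s => [0, 1, 2].all fun col : Fin 3 =>
      L.any (fun p => s p == col) || chk goal rest (fun j => if j = e then col else s j)

def wf : List ℕ → List (ℕ × List ℕ) → Bool
  | _, [] => true
  | done, (e, L) :: rest => L.all (fun p => p ∈ done) && wf (e :: done) rest

lemma chk_sound (goal : (ℕ → Fin 3) → Bool) (c : ℕ → Fin 3) (its : List (ℕ × List ℕ)) :
    ∀ (done : List ℕ) (s : ℕ → Fin 3), (∀ j ∈ done, s j = c j) → wf done its = true →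
      (∀ it ∈ its, ∀ p ∈ it.2, c p ≠ c it.1) → chk goal its s = true →
      ∃ s', (∀ j, j ∈ done ∨ j ∈ its.map Prod.fst → s' j = c j) ∧ goal s' = true := by
  induction its with
  | nil => exact fun done s h1 _ _ h4 => ⟨s, fun j hj => h1 j (by simpa using hj), h4⟩
  | cons it rest ih =>
    obtain ⟨e, L⟩ := it
    intro done s h1 h2 h3 h4
    simp only [wf, Bool.and_eq_true, List.all_eq_true, decide_eq_true_eq] at h2
    simp only [chk, List.all_eq_true, Bool.or_eq_true, List.any_eq_true, beq_iff_eq] at h4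
    rcases h4 (c e) (by generalize c e = x; revert x; decide) with ⟨p, hp, hp'⟩ | h5
    · exact absurd ((h1 p (h2.1 p hp)).symm.trans hp') (h3 (e, L) (by simp) p hp)
    · obtain ⟨s', a1, a2⟩ := ih (e :: done) _ (fun j hj => by
        by_cases h : j = e
        · simp [h]
        · simp only [h, if_false]
          exact h1 j (by simpa [h] using hj)) h2.2 (fun it hit => h3 it (by simp [hit])) h5
      exact ⟨s', fun j hj => a1 j (by simp only [List.map_cons, List.mem_cons] at hj ⊢; tauto), a2⟩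

lemma chk_main (goal : (ℕ → Fin 3) → Bool) (c : ℕ → Fin 3) (its : List (ℕ × List ℕ))
    (h2 : wf [] its = true) (h4 : chk goal its (fun _ => 0) = true)
    (h3 : ∀ it ∈ its, ∀ p ∈ it.2, c p ≠ c it.1) :
    ∃ s', (∀ j ∈ its.map Prod.fst, s' j = c j) ∧ goal s' = true := by
  obtain ⟨s', a1, a2⟩ := chk_sound goal c its [] _ (by simp) h2 h3 h4
  exact ⟨s', fun j hj => a1 j (Or.inr hj), a2⟩

/-- The edge `{a, b}` as a number. -/
def code (n a b : ℕ) : ℕ := min a b * n + max a b

/-- Transfer of a symmetric colouring of pairs to edge codes. -/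
lemma exists_code {n : ℕ} [NeZero n] (f : Fin n → Fin n → Fin 3) (hf : ∀ a b, f a b = f b a) :
    ∃ c : ℕ → Fin 3, ∀ a b : Fin n, c (code n a b) = f a b := by
  refine ⟨fun m => f (Fin.ofNat n (m / n)) (Fin.ofNat n (m % n)), fun a b => ?_⟩
  have key : ∀ a b : Fin n, f (Fin.ofNat n ((a * n + b) / n)) (Fin.ofNat n ((a * n + b) % n)) =
      f a b := by
    intro a b
    rw [mul_comm, Nat.mul_add_div (NeZero.pos n), Nat.mul_add_mod, Nat.div_eq_of_lt b.2,
      Nat.mod_eq_of_lt b.2]
    simp
  rcases le_total (a : ℕ) b with h | h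
  · simp only [code, min_eq_left h, max_eq_right h, key]
  · simp only [code, min_eq_right h, max_eq_left h, key, hf a b]

end Pool.Agent.MP_06b47d_co

end

section

/-! Connected sum with the seven-vertex torus. -/

open Relation

namespace Pool.Agent.MP_06b47d_co

def th (i j : Fin 7) : Fin 7 := 3 * j + 5 * i

def T2 (i j : Fin 7) : Prop := i ≠ j ∧ ¬ (i = 0 ∧ j = 1) ∧ ¬ (i = 1 ∧ j = 3) ∧ ¬ (i = 3 ∧ j = 0)

instance (i j : Fin 7) : Decidable (T2 i j) := by unfold T2; infer_instance

lemma t_a : ∀ i j, T2 i j → j ≠ th i j := by decide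

lemma t_b : ∀ i j, T2 i j → T2 j (th i j) := by decide

lemma t_c : ∀ i j, th j (th i j) = i := by decide

lemma t_d : ∀ i j : Fin 7, (i ≠ 0 ∧ i ≠ 1 ∧ i ≠ 3) → i ≠ j →
    (∃ k < 7, (∀ l < k, T2 ((fun x => th x i)^[l] j) i) ∧ (fun x => th x i)^[k] j = 0) ∧
    (∃ k < 7, (∀ l < k, T2 ((fun x => th x i)^[l] 0) i) ∧ (fun x => th x i)^[k] 0 = j) := by
  decide

lemma k7 (g : Fin 7 → Fin 7 → Fin 3) (hs : ∀ i j, g i j = g j i)
    (h : ∀ i j, T2 i j → g i j ≠ g j (th i j)) : g 0 3 ≠ g 3 1 ∧ g 3 1 ≠ g 1 0 ∧ g 1 0 ≠ g 0 3 := by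
  obtain ⟨c, hc⟩ := exists_code g hs
  obtain ⟨s, h1, h2⟩ := chk_main (fun s => s 3 != s 10 && s 10 != s 1 && s 1 != s 3) c
    [(3, []), (17, [3]), (2, [3, 17]), (26, [17]), (19, [17, 26]), (33, [19]), (18, [19, 33]),
      (9, [18]), (11, [9, 18]), (25, [11]), (10, [11, 25]), (34, [25]), (27, [25, 26, 34]),
      (41, [26, 27]), (5, [33]), (4, [5, 33, 34]), (6, [2, 4, 34]), (20, [2, 6, 9]),
      (13, [9, 20, 41]), (12, [5, 13, 41]), (1, [5, 12])] (by decide +kernel) (by decide +kernel)
    (fun it hit p hp => by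
      obtain ⟨i, j, h1, h2⟩ : ∃ i j : Fin 7, T2 i j ∧
          ((p = code 7 i j ∧ it.1 = code 7 j (th i j)) ∨
            (it.1 = code 7 i j ∧ p = code 7 j (th i j))) := by
        revert it p
        decide +kernel
      have := h i j h1
      rcases h2 with ⟨h2, h3⟩ | ⟨h2, h3⟩ <;> rw [h2, h3, hc, hc]
      · exact this
      · exact this.symm)
  rw [h1 3 (by decide), h1 10 (by decide), h1 1 (by decide)] at h2
  rw [← hc, ← hc, ← hc]
  simpa [code, and_assoc] using h2

namespace Pre

variable {V : Type} [DecidableEq V] (P : Pre V) (a b c : V)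

def emb : Fin 7 → V ⊕ Fin 4 :=
  ![.inl a, .inl c, .inr 0, .inl b, .inr 1, .inr 2, .inr 3]

def lab : V ⊕ Fin 4 → Fin 7
  | .inl x => if x = a then 0 else if x = c then 1 else 3
  | .inr k => ![2, 4, 5, 6] k

def Fc (x y : V) : Prop := (x = a ∧ y = b) ∨ (x = b ∧ y = c) ∨ (x = c ∧ y = a)

instance (x y : V) : Decidable (Fc a b c x y) := by unfold Fc; infer_instance

def adj' : V ⊕ Fin 4 → V ⊕ Fin 4 → Prop
  | .inl x, .inl y => P.adj x y
  | .inl x, .inr _ => x = a ∨ x = b ∨ x = c
  | .inr _, .inl y => y = a ∨ y = b ∨ y = c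
  | .inr i, .inr j => i ≠ j

def nx' : V ⊕ Fin 4 → V ⊕ Fin 4 → V ⊕ Fin 4
  | .inl x, .inl y => if Fc a b c x y then emb a b c (th (lab a c (.inl x)) (lab a c (.inl y)))
      else .inl (P.nx x y)
  | x, y => emb a b c (th (lab a c x) (lab a c y))

variable {P a b c}

section

variable (hab : P.adj a b) (hc : P.nx a b = c)
include hab hc

omit [DecidableEq V] in
lemma basic : P.adj b c ∧ P.adj c a ∧ P.nx b c = a ∧ P.nx c a = b ∧ a ≠ b ∧ b ≠ c ∧ c ≠ a := by
  subst hc
  exact ⟨P.h1 hab, P.h4 hab, P.h2 hab, P.h3 hab, fun h => P.irr _ (h ▸ hab),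
    fun h => P.irr b (by have := P.h1 hab; rwa [← h] at this),
    fun h => P.irr a (by have := P.h4 hab; rwa [h] at this)⟩

lemma nx_emb {i j : Fin 7} (h : T2 i j) :
    P.nx' a b c (emb a b c i) (emb a b c j) = emb a b c (th i j) := by
  obtain ⟨-, -, -, -, n1, n2, n3⟩ := basic hab hc
  have n4 := n1.symm
  have n5 := n3.symm
  revert h
  fin_cases i <;> fin_cases j <;> simp [T2, nx', emb, lab, Fc, *]

omit [DecidableEq V] in
lemma adj_emb {i j : Fin 7} (h : i ≠ j) : P.adj' a b c (emb a b c i) (emb a b c j) := by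
  obtain ⟨b1, b2, -⟩ := basic hab hc
  have b3 := P.symm b1
  have b4 := P.symm b2
  have b5 := P.symm hab
  revert h
  fin_cases i <;> fin_cases j <;> simp [adj', emb, *]

omit hab hc in
lemma cases' {x y : V ⊕ Fin 4} (h : P.adj' a b c x y) :
    (∃ u v, P.adj u v ∧ ¬ Fc a b c u v ∧ x = .inl u ∧ y = .inl v) ∨
      ∃ i j, T2 i j ∧ x = emb a b c i ∧ y = emb a b c j := by
  have key : ∀ k : Fin 4, ∃ j : Fin 7, j ≠ 0 ∧ j ≠ 1 ∧ j ≠ 3 ∧ Sum.inr k = emb a b c j := by
    intro k
    fin_cases k
    exacts [⟨2, by decide, by decide, by decide, rfl⟩, ⟨4, by decide, by decide, by decide, rfl⟩,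
      ⟨5, by decide, by decide, by decide, rfl⟩, ⟨6, by decide, by decide, by decide, rfl⟩]
  rcases x with x | x <;> rcases y with y | y
  · by_cases h1 : Fc a b c x y
    · rcases h1 with ⟨rfl, rfl⟩ | ⟨rfl, rfl⟩ | ⟨rfl, rfl⟩
      exacts [Or.inr ⟨0, 3, by decide, rfl, rfl⟩, Or.inr ⟨3, 1, by decide, rfl, rfl⟩,
        Or.inr ⟨1, 0, by decide, rfl, rfl⟩]
    · exact Or.inl ⟨x, y, h, h1, rfl, rfl⟩
  · obtain ⟨j, j1, j2, j3, j4⟩ := key y
    rcases h with rfl | rfl | rfl
    exacts [Or.inr ⟨0, j, by simp [T2, *, j1.symm], rfl, j4⟩,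
      Or.inr ⟨3, j, by simp [T2, *, j3.symm], rfl, j4⟩,
      Or.inr ⟨1, j, by simp [T2, *, j2.symm], rfl, j4⟩]
  · obtain ⟨j, j1, j2, j3, j4⟩ := key x
    rcases h with rfl | rfl | rfl
    exacts [Or.inr ⟨j, 0, by simp [T2, *], j4, rfl⟩, Or.inr ⟨j, 3, by simp [T2, *], j4, rfl⟩,
      Or.inr ⟨j, 1, by simp [T2, *], j4, rfl⟩]
  · obtain ⟨i, i1, i2, i3, i4⟩ := key x
    obtain ⟨j, -, -, -, j4⟩ := key y
    refine Or.inr ⟨i, j, ⟨?_, by simp [*]⟩, i4, j4⟩
    rintro rfl
    exact h (Sum.inr.inj (i4.trans j4.symm))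

omit [DecidableEq V] in
lemma nf_next {u v : V} (h : P.adj u v) (h1 : ¬ Fc a b c u v) : ¬ Fc a b c v (P.nx u v) := by
  obtain ⟨-, -, b1, b2, -⟩ := basic hab hc
  have h2 := P.h2 h
  rintro (⟨h3, h4⟩ | ⟨h3, h4⟩ | ⟨h3, h4⟩) <;> rw [h4] at h2 <;> rw [h3] at h2 <;>
    apply h1 <;> simp [Fc, ← h2, *]

omit hab hc in
lemma nx_inl {u v : V} (h1 : ¬ Fc a b c u v) :
    P.nx' a b c (.inl u) (.inl v) = .inl (P.nx u v) := by simp [nx', h1]

lemma link_emb (i j : Fin 7) (_hij : j ≠ i) (k : ℕ)
    (h : ∀ l < k, T2 ((fun x => th x i)^[l] j) i) :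
    ReflTransGen (fun x y => P.adj' a b c (emb a b c i) x ∧ y = P.nx' a b c x (emb a b c i))
      (emb a b c j) (emb a b c ((fun x => th x i)^[k] j)) := by
  induction k with
  | zero => exact .refl
  | succ k ih =>
    have h1 := h k (by omega)
    refine (ih fun l hl => h l (by omega)).tail ⟨adj_emb hab hc h1.1.symm, ?_⟩
    rw [nx_emb hab hc h1, Function.iterate_succ_apply']

lemma link_old {v u w : V} (h : ReflTransGen (fun x y => P.adj v x ∧ y = P.nx x v) u w) :
    ReflTransGen (fun x y => P.adj' a b c (.inl v) x ∧ y = P.nx' a b c x (.inl v))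
      (.inl u) (.inl w) := by
  obtain ⟨-, -, b1, b2, -⟩ := basic hab hc
  induction h with
  | refl => exact .refl
  | @tail x y _ h2 ih =>
    obtain ⟨h3, rfl⟩ := h2
    by_cases h1 : Fc a b c x v
    · refine ih.trans ?_
      rcases h1 with ⟨rfl, rfl⟩ | ⟨rfl, rfl⟩ | ⟨rfl, rfl⟩
      · rw [hc]; exact link_emb hab hc 3 0 (by decide) 5 (by decide)
      · rw [b1]; exact link_emb hab hc 1 3 (by decide) 5 (by decide)
      · rw [b2]; exact link_emb hab hc 0 1 (by decide) 5 (by decide)
    · exact ih.tail ⟨h3, (nx_inl h1).symm⟩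

lemma link_new {v x : V ⊕ Fin 4} (h : P.adj' a b c v x) :
    (∃ v' u, v = .inl v' ∧ P.adj v' u ∧ ReflTransGen
      (fun x y => P.adj' a b c v x ∧ y = P.nx' a b c x v) x (.inl u) ∧ ∃ w, P.adj v' w ∧
      ReflTransGen (fun x y => P.adj' a b c v x ∧ y = P.nx' a b c x v) (.inl w) x) ∨
    (∃ k, v = .inr k ∧ ReflTransGen (fun x y => P.adj' a b c v x ∧ y = P.nx' a b c x v) x (.inl a) ∧
      ReflTransGen (fun x y => P.adj' a b c v x ∧ y = P.nx' a b c x v) (.inl a) x) := by
  obtain ⟨b1, b2, -⟩ := basic hab hc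
  have key : ∀ i j s t : Fin 7, j ≠ i → s ≠ i →
      (∃ k < 7, (∀ l < k, T2 ((fun x => th x i)^[l] j) i) ∧ (fun x => th x i)^[k] j = t) →
      (∃ k < 7, (∀ l < k, T2 ((fun x => th x i)^[l] s) i) ∧ (fun x => th x i)^[k] s = j) →
      ReflTransGen (fun x y => P.adj' a b c (emb a b c i) x ∧ y = P.nx' a b c x (emb a b c i))
        (emb a b c j) (emb a b c t) ∧
      ReflTransGen (fun x y => P.adj' a b c (emb a b c i) x ∧ y = P.nx' a b c x (emb a b c i))
        (emb a b c s) (emb a b c j) := by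
    rintro i j s t h1 h2 ⟨k, -, h3, rfl⟩ ⟨k', -, h4, rfl⟩
    exact ⟨link_emb hab hc _ _ h1 k h3, link_emb hab hc _ _ h2 k' h4⟩
  rcases v with v | v
  · left
    rcases x with x | x
    · exact ⟨v, x, rfl, h, .refl, x, h, .refl⟩
    · obtain ⟨j, j1, j4⟩ : ∃ j : Fin 7, (j ≠ 0 ∧ j ≠ 1 ∧ j ≠ 3) ∧ Sum.inr x = emb a b c j := by
        fin_cases x
        exacts [⟨2, by decide, rfl⟩, ⟨4, by decide, rfl⟩, ⟨5, by decide, rfl⟩, ⟨6, by decide, rfl⟩]
      rw [j4]
      rcases h with rfl | rfl | rfl
      · have := key 0 j 1 3 j1.1 (by decide) (by revert j1; generalize j = j; revert j; decide)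
          (by revert j1; generalize j = j; revert j; decide)
        exact ⟨_, _, rfl, hab, this.1, _, P.symm b2, this.2⟩
      · have := key 3 j 0 1 j1.2.2 (by decide) (by revert j1; generalize j = j; revert j; decide)
          (by revert j1; generalize j = j; revert j; decide)
        exact ⟨_, _, rfl, b1, this.1, _, P.symm hab, this.2⟩
      · have := key 1 j 3 0 j1.2.1 (by decide) (by revert j1; generalize j = j; revert j; decide)
          (by revert j1; generalize j = j; revert j; decide)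
        exact ⟨_, _, rfl, b2, this.1, _, P.symm b1, this.2⟩
  · right
    refine ⟨v, rfl, ?_⟩
    rcases cases' h with ⟨_, _, _, _, h1, _⟩ | ⟨i, j, h1, h2, rfl⟩
    · simp at h1
    · have h3 : i ≠ 0 ∧ i ≠ 1 ∧ i ≠ 3 := by
        refine ⟨?_, ?_, ?_⟩ <;> rintro rfl <;> simp [emb] at h2
      rw [h2]
      have h4 := h1.1
      exact key i j 0 0 h4.symm h3.1.symm (t_d i j h3 h4).1 (t_d i j h3 h4).2

end

omit [DecidableEq V] in
lemma symm' {x y : V ⊕ Fin 4} (h : P.adj' a b c x y) : P.adj' a b c y x := by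
  rcases x with x | x <;> rcases y with y | y
  exacts [P.symm h, h, h, Ne.symm h]

/-- The connected sum with the seven-vertex torus along the face `a b c`. -/
def sum (hab : P.adj a b) (hc : P.nx a b = c) : Pre (V ⊕ Fin 4) where
  adj := P.adj' a b c
  nx := P.nx' a b c
  symm := symm'
  irr := by
    rintro (x | x)
    exacts [P.irr x, fun h => h rfl]
  h1 := by
    intro x y h
    rcases cases' h with ⟨u, v, h1, h2, rfl, rfl⟩ | ⟨i, j, h1, rfl, rfl⟩
    · rw [nx_inl h2]; exact P.h1 h1
    · rw [nx_emb hab hc h1]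
      exact adj_emb hab hc (t_a i j h1)
  h2 := by
    intro x y h
    rcases cases' h with ⟨u, v, h1, h2, rfl, rfl⟩ | ⟨i, j, h1, rfl, rfl⟩
    · rw [nx_inl h2, nx_inl (nf_next hab hc h1 h2), P.h2 h1]
    · rw [nx_emb hab hc h1, nx_emb hab hc (t_b i j h1), t_c]
  link := by
    intro v u w h1 h2
    rcases link_new hab hc h1 with ⟨v1, u1, rfl, a1, a2, -⟩ | ⟨k, rfl, a1, -⟩ <;>
      rcases link_new hab hc h2 with ⟨v2, -, e, -, -, w1, a3, a4⟩ | ⟨k, e, -, a4⟩
    · obtain rfl := Sum.inl.inj e
      exact (a2.trans (link_old hab hc (P.link a1 a3))).trans a4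
    · simp at e
    · simp at e
    · exact a1.trans a4
  conn := by
    have h1 : ∀ u v, ReflTransGen (P.adj' a b c) (.inl u) (.inl v) := fun u v => by
      induction P.conn u v with
      | refl => exact .refl
      | tail _ h ih => exact ih.tail h
    have h2 : ∀ k, P.adj' a b c (.inr k) (.inl a) := fun _ => Or.inl rfl
    rintro (x | x) (y | y)
    · exact h1 x y
    · exact (h1 x a).tail (symm' (h2 y))
    · exact ReflTransGen.head (h2 x) (h1 a y)
    · exact ReflTransGen.head (h2 x) (.single (symm' (h2 y)))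

lemma sum_bad (hab : P.adj a b) (hc : P.nx a b = c) (h : P.Bad) : (sum hab hc).Bad := by
  rintro ⟨f, f1, f2⟩
  obtain ⟨-, -, b1, b2, -⟩ := basic hab hc
  obtain ⟨k1, k2, k3⟩ := k7 (fun i j => f (emb a b c i) (emb a b c j)) (fun _ _ => f1 _ _)
    (fun i j hij => by
      have := f2 _ _ (adj_emb hab hc hij.1)
      rwa [show (sum hab hc).nx = P.nx' a b c from rfl, nx_emb hab hc hij] at this)
  refine h ⟨fun u v => f (.inl u) (.inl v), fun _ _ => f1 _ _, fun u v huv => ?_⟩
  by_cases h1 : Fc a b c u v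
  · rcases h1 with ⟨rfl, rfl⟩ | ⟨rfl, rfl⟩ | ⟨rfl, rfl⟩
    · rw [hc]; exact k1
    · rw [b1]; exact k2
    · rw [b2]; exact k3
  · have := f2 (.inl u) (.inl v) huv
    rwa [show (sum hab hc).nx = P.nx' a b c from rfl, nx_inl h1] at this

lemma sum_darts [Fintype V] (hab : P.adj a b) (hc : P.nx a b = c) :
    (sum hab hc).darts = P.darts + 36 := by
  classical
  obtain ⟨-, -, -, -, n1, n2, n3⟩ := basic hab hc
  have h1 : (Finset.univ.filter fun x => x = a ∨ x = b ∨ x = c).card = 3 :=
    Finset.card_eq_three.2 ⟨a, b, c, n1, n3.symm, n2, by ext; simp⟩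
  rw [Finset.card_filter] at h1
  have h2 : ∀ x : Fin 4, (∑ y : Fin 4, if x ≠ y then 1 else 0) = 3 := by decide
  have e1 : ∀ y : Fin 4, (∑ x : V, if (sum hab hc).adj (.inl x) (.inr y) then 1 else 0) = 3 :=
    fun y => by rw [← h1]; exact Finset.sum_congr rfl fun x _ => if_congr Iff.rfl rfl rfl
  have e2 : ∀ y : Fin 4, (∑ x : V, if (sum hab hc).adj (.inr y) (.inl x) then 1 else 0) = 3 :=
    fun y => by rw [← h1]; exact Finset.sum_congr rfl fun x _ => if_congr Iff.rfl rfl rfl
  have e3 : ∀ y : Fin 4, (∑ x : Fin 4, if (sum hab hc).adj (.inr y) (.inr x) then 1 else 0) = 3 :=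
    fun y => by rw [← h2 y]; exact Finset.sum_congr rfl fun x _ => if_congr Iff.rfl rfl rfl
  have e4 : (∑ x : V, ∑ y : V, if (sum hab hc).adj (.inl x) (.inl y) then 1 else 0) = P.darts :=
    rfl
  simp only [darts, Fintype.sum_sum_type, Finset.sum_add_distrib]
  rw [Finset.sum_comm (s := Finset.univ) (t := (Finset.univ : Finset (Fin 4)))]
  simp only [e1, e2, e3, e4]
  simp [darts]

end Pre

def Good (g : ℕ) : Prop :=
  ∃ (V : Type) (_ : Fintype V) (P : Pre V), (∃ a b, P.adj a b) ∧
    P.darts + 12 = 6 * Fintype.card V + 12 * g ∧ P.Bad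

lemma Good.succ {g : ℕ} (h : Good g) : Good (g + 1) := by
  classical
  obtain ⟨V, _, P, ⟨a, b, hab⟩, h1, h2⟩ := h
  refine ⟨V ⊕ Fin 4, inferInstance, Pre.sum hab rfl, ⟨.inl a, .inl b, hab⟩, ?_,
    Pre.sum_bad hab rfl h2⟩
  rw [Pre.sum_darts, Fintype.card_sum, Fintype.card_fin]
  omega

lemma Good.not_grunbaum {g : ℕ} (h : Good g) : ¬ Grunbaum g := by
  obtain ⟨V, _, P, ⟨a, -⟩, h1, h2⟩ := h
  have : Nonempty V := ⟨a⟩
  exact P.not_grunbaum h1 h2

end Pool.Agent.MP_06b47d_co

end

section

/-! A triangulation of the genus three surface on 28 vertices without a proper colouring. -/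

open Relation

namespace Pool.Agent.MP_06b47d_co

def tab : ℕ :=
  10903928694734342398319680918757836686071487873654792926044332436399217873477533420039787757132502286064438388783425776974167004068130793981448549498652061603311232649957382920391438557312555369028775797915906466251408657327305880668952714437366926317930587203164130281713037154117794056910070339339138351861454272908074848323637060128440889010018538795224962529082640987925020254313650572710906934809005776666860965949124050007744003777855538851382278842348812085683004537670676471416774373950468595251492068999315924363562219411125221569248367079022991514317577426730656462905787561416084239640757301423906449740121908910250098369697882033789221446341701304285832592818464603830121070978817681812403187782825776140925011117581247367553283808839127749608784459819954875622734515975848662195368560898211503811867781257591891911334278991575074050419682172706284749152673429818288624762316000615611864615986152664197597940958895739550277140951804552635385888297335001521491470007429990845712881412795905645157762380294440022204861766617593915728217022433831758095775615487257651650058170974518477167909559186163583193903722688415369193657975592528969642629619834631320186820880501855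

def nv (a b : ℕ) : ℕ := tab >>> (5 * (28 * a + b)) % 32

def ad (a b : Fin 28) : Prop := nv a b < 28

instance (a b : Fin 28) : Decidable (ad a b) := by unfold ad; infer_instance

def nf (a b : Fin 28) : Fin 28 := Fin.ofNat 28 (nv a b)

lemma b_symm : ∀ a b, ad a b → ad b a := by decide +kernel

lemma b_h1 : ∀ a b, ad a b → ad b (nf a b) := by decide +kernel

lemma b_iter {v u : Fin 28} (h : ad v u) (k : ℕ) : ad v ((fun x => nf x v)^[k] u) ∧
    ReflTransGen (fun x y => ad v x ∧ y = nf x v) u ((fun x => nf x v)^[k] u) := by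
  induction k with
  | zero => exact ⟨h, .refl⟩
  | succ k ih =>
    rw [Function.iterate_succ_apply']
    exact ⟨b_h1 _ _ (b_symm _ _ ih.1), ih.2.tail ⟨ih.1, rfl⟩⟩

lemma b_link : ∀ v u, ad v u → ∀ w, ad v w → ∃ k < 20, (fun x => nf x v)^[k] u = w := by
  decide +kernel

lemma b_conn (a : Fin 28) : ReflTransGen ad a 0 ∧ ReflTransGen ad 0 a := by
  have h : ∀ a : Fin 28, a = 0 ∨ ∃ b < a, ad a b := by decide +kernel
  induction a using WellFoundedLT.induction with
  | ind a ih =>
    rcases h a with rfl | ⟨b, h1, h2⟩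
    · exact ⟨.refl, .refl⟩
    · exact ⟨.head h2 (ih b h1).1, (ih b h1).2.tail (b_symm _ _ h2)⟩

def base : Pre (Fin 28) where
  adj := ad
  nx := nf
  symm := b_symm _ _
  irr := by decide +kernel
  h1 := b_h1 _ _
  h2 := fun {a b} => by revert a b; decide +kernel
  link := fun {v u w} h1 h2 => by
    obtain ⟨k, -, rfl⟩ := b_link v u h1 w h2
    exact (b_iter h1 k).2
  conn := fun a b => (b_conn a).1.trans (b_conn b).2

lemma base_darts : base.darts = 192 := by
  have : (∑ x : Fin 28, ∑ y : Fin 28, if ad x y then 1 else 0) = 192 := by decide +kernel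
  rw [← this]
  classical
  exact Finset.sum_congr rfl fun x _ => Finset.sum_congr rfl fun y _ => if_congr Iff.rfl rfl rfl

/-- The edge with code `e` follows the edge with code `p` in a face. -/
def fol (p e : ℕ) : Bool :=
  [(Fin.ofNat 28 (p / 28), Fin.ofNat 28 p), (Fin.ofNat 28 p, Fin.ofNat 28 (p / 28))].any
    fun q => decide (ad q.1 q.2) && code 28 q.1 q.2 == p && code 28 q.2 (nf q.1 q.2) == e

def okc (its : List (ℕ × List ℕ)) : Bool := its.all fun it => it.2.all fun p => fol p it.1 || fol it.1 p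

lemma run (c : ℕ → Fin 3) (hc : ∀ a b, ad a b → c (code 28 a b) ≠ c (code 28 b (nf a b)))
    (goal : (ℕ → Fin 3) → Bool) (its : List (ℕ × List ℕ)) (h1 : wf [] its = true)
    (h2 : chk goal its (fun _ => 0) = true) (h3 : okc its = true) :
    ∃ s', (∀ j ∈ its.map Prod.fst, s' j = c j) ∧ goal s' = true := by
  have key : ∀ p e, fol p e = true → c p ≠ c e := by
    intro p e h
    simp only [fol, List.any_eq_true, Bool.and_eq_true, decide_eq_true_eq, beq_iff_eq] at h
    obtain ⟨q, -, ⟨a1, a2⟩, a3⟩ := h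
    have := hc _ _ a1
    rwa [a2, a3] at this
  refine chk_main goal c its h1 h2 fun it hit p hp => ?_
  simp only [okc, List.all_eq_true, Bool.or_eq_true] at h3
  rcases h3 it hit p hp with h | h
  exacts [key _ _ h, (key _ _ h).symm]

/-- The two boundary patterns of the gadget. -/
def ty (p q r t : Fin 3) : Bool := (p == q && r == t && p != r) || (p == t && q == r && p != q)

def g0 : List (ℕ × List ℕ) :=
  [(117, []), (161, [117]), (133, [117, 161]), (4, [117]), (5, [4, 117]), (189, [133]), (118,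
    [133, 189]), (175, [118]), (119, [118, 175]), (220, [119]), (136, [119, 220]), (556, [136]),
    (131, [136, 556]), (160, [161]), (581, [160, 161]), (146, [5, 160]), (188, [146, 160]), (6,
    [5, 146, 175]), (7, [6, 175]), (90, [188, 189]), (104, [90, 188]), (105, [90, 189]), (103,
    [104]), (552, [103, 104, 581]), (553, [552, 556, 581]), (612, [553, 556]), (8, [7]), (204, [7,
    8, 220]), (248, [204, 220, 612]), (245, [105, 248, 612]), (92, [8, 105, 245]), (3, [8, 92])]

def g1 : List (ℕ × List ℕ) :=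
  [(554, []), (526, [554]), (523, [526, 554]), (103, [554]), (106, [103, 554]), (466, [523]),
    (467, [466, 523]), (471, [467]), (555, [467, 471]), (670, [555]), (558, [555, 670]), (278,
    [558]), (271, [278, 558]), (442, [526]), (438, [442, 526]), (470, [106, 442]), (436, [442,
    470]), (100, [106, 470, 471]), (107, [100, 471]), (72, [436, 466]), (71, [72, 436]), (74, [72,
    466]), (65, [71]), (267, [65, 71, 438]), (270, [267, 278, 438]), (530, [270, 278]), (101,
    [107]), (499, [101, 107, 670]), (502, [499, 530, 670]), (494, [74, 502, 530]), (73, [74, 101,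
    494]), (59, [73, 101])]

def g2 : List (ℕ × List ℕ) :=
  [(38, []), (293, [38]), (41, [38, 293]), (32, [38]), (122, [32, 38]), (321, [41]), (39, [41,
    321]), (320, [39]), (40, [39, 320]), (350, [40]), (42, [40, 350]), (266, [42]), (37, [42,
    266]), (307, [293]), (391, [293, 307]), (291, [122, 307]), (335, [291, 307]), (123, [122, 291,
    320]), (124, [123, 320]), (327, [321, 335]), (559, [327, 335]), (383, [321, 327]), (271,
    [559]), (279, [271, 391, 559]), (265, [266, 279, 391]), (378, [265, 266]), (137, [124]), (361,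
    [124, 137, 350]), (417, [350, 361, 378]), (389, [378, 383, 417]), (557, [137, 383, 389]),
    (131, [137, 557])]

def g3 : List (ℕ × List ℕ) :=
  [(1, []), (30, [1]), (2, [1, 30]), (59, [2]), (3, [2, 59]), (4, [1]), (32, [1, 4]), (37, [30]),
    (65, [30, 37]), (103, []), (131, []), (271, [])]

lemma base_bad : base.Bad := by
  rintro ⟨f, f1, f2⟩
  obtain ⟨c, hc⟩ := exists_code f f1
  have hc' : ∀ a b, ad a b → c (code 28 a b) ≠ c (code 28 b (nf a b)) := fun a b h => by
    rw [hc, hc]; exact f2 a b h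
  obtain ⟨s0, a0, b0⟩ := run c hc' (fun s => ty (s 3) (s 103) (s 131) (s 4)) g0
    (by decide +kernel) (by decide +kernel) (by decide +kernel)
  obtain ⟨s1, a1, b1⟩ := run c hc' (fun s => ty (s 59) (s 65) (s 271) (s 103)) g1
    (by decide +kernel) (by decide +kernel) (by decide +kernel)
  obtain ⟨s2, a2, b2⟩ := run c hc' (fun s => ty (s 131) (s 271) (s 37) (s 32)) g2
    (by decide +kernel) (by decide +kernel) (by decide +kernel)
  obtain ⟨s3, a3, b3⟩ := run c hc' (fun s => !(ty (s 3) (s 103) (s 131) (s 4) &&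
    ty (s 59) (s 65) (s 271) (s 103) && ty (s 131) (s 271) (s 37) (s 32))) g3
    (by decide +kernel) (by decide +kernel) (by decide +kernel)
  rw [a0 3 (by decide), a0 103 (by decide), a0 131 (by decide), a0 4 (by decide)] at b0
  rw [a1 59 (by decide), a1 65 (by decide), a1 271 (by decide), a1 103 (by decide)] at b1
  rw [a2 131 (by decide), a2 271 (by decide), a2 37 (by decide), a2 32 (by decide)] at b2
  rw [a3 3 (by decide), a3 103 (by decide), a3 131 (by decide), a3 4 (by decide),
    a3 59 (by decide), a3 65 (by decide), a3 271 (by decide), a3 37 (by decide),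
    a3 32 (by decide), b0, b1, b2] at b3
  exact absurd b3 (by decide)

lemma good_three : Good 3 :=
  ⟨Fin 28, inferInstance, base, ⟨0, 1, show ad 0 1 by decide +kernel⟩,
    by rw [base_darts, Fintype.card_fin], base_bad⟩

lemma good_ge {g : ℕ} (h : 3 ≤ g) : Good g := by
  induction g, h using Nat.le_induction with
  | base => exact good_three
  | succ _ _ ih => exact ih.succ

end Pool.Agent.MP_06b47d_co

end
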